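import Pool.Agent.Q110.DS.Core

set_option autoImplicit false
open Finset Filter

namespace Pool.Agent.Results.MP_f2a48e_co.SuperlinearSqrt

/-- The 0-1 matrix `A` contains the pattern `P`. -/
def Contains {a b r s : ℕ} (A : Fin a → Fin b → Bool) (P : Fin r → Fin s → Bool) : Prop :=
  ∃ (f : Fin r → Fin a) (g : Fin s → Fin b), StrictMono f ∧ StrictMono g ∧
    ∀ i j, P i j = true → A (f i) (g j) = true

/-- The number of 1-entries of `A`. -/
def ones {a b : ℕ} (A : Fin a → Fin b → Bool) : ℕ :=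
  (Finset.univ.filter (fun p : Fin a × Fin b => A p.1 p.2 = true)).card

/-- `ex(n, P)`: the largest number of 1-entries of an `n × n` matrix avoiding `P`. -/
noncomputable def ex {r s : ℕ} (n : ℕ) (P : Fin r → Fin s → Bool) : ℕ :=
  sSup {k | ∃ A : Fin n → Fin n → Bool, ¬ Contains A P ∧ ones A = k}

/-- `LSM(A, P)`: the largest number of 1-entries of a `P`-avoiding matrix obtained from `A` by
turning 1-entries into 0. -/
noncomputable def LSM {a b r s : ℕ} (A : Fin a → Fin b → Bool) (P : Fin r → Fin s → Bool) : ℕ :=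
  sSup {k | ∃ B : Fin a → Fin b → Bool, (∀ i j, B i j = true → A i j = true) ∧
    ¬ Contains B P ∧ ones B = k}

/-- `sm(m, P)`: the minimum of `LSM(A, P)` over all matrices `A` with exactly `m` 1-entries. -/
noncomputable def sm {r s : ℕ} (m : ℕ) (P : Fin r → Fin s → Bool) : ℕ :=
  sInf {k | ∃ (a b : ℕ) (A : Fin a → Fin b → Bool), ones A = m ∧ LSM A P = k}

/-- The pattern with rows `1010` and `0101`. -/
def P0 : Fin 2 → Fin 4 → Bool := ![![true, false, true, false], ![false, true, false, true]]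

theorem contains_P0_iff {a b : ℕ} (A : Fin a → Fin b → Bool) : Contains A P0 ↔
    ∃ (i i' : Fin a) (c1 c2 c3 c4 : Fin b), i < i' ∧ c1 < c2 ∧ c2 < c3 ∧ c3 < c4 ∧
      A i c1 = true ∧ A i' c2 = true ∧ A i c3 = true ∧ A i' c4 = true := by
  constructor
  · rintro ⟨f, g, hf, hg, h⟩
    exact ⟨f 0, f 1, g 0, g 1, g 2, g 3, hf (by decide), hg (by decide), hg (by decide),
      hg (by decide), h 0 0 rfl, h 1 1 rfl, h 0 2 rfl, h 1 3 rfl⟩
  · rintro ⟨i, i', c1, c2, c3, c4, hi, h12, h23, h34, h1, h2, h3, h4⟩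
    refine ⟨![i, i'], ![c1, c2, c3, c4], ?_, ?_, ?_⟩
    · rw [Fin.strictMono_iff_lt_succ]
      intro x
      fin_cases x
      simpa using hi
    · rw [Fin.strictMono_iff_lt_succ]
      intro x
      fin_cases x
      · simpa using h12
      · simpa using h23
      · simpa using h34
    · intro x y hxy
      fin_cases x <;> fin_cases y <;> simp_all [P0]

theorem ones_le {a b : ℕ} (A : Fin a → Fin b → Bool) : ones A ≤ a * b := by
  unfold ones
  refine (Finset.card_le_univ _).trans ?_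
  simp

theorem le_LSM {a b r s : ℕ} (A B : Fin a → Fin b → Bool) (P : Fin r → Fin s → Bool)
    (h1 : ∀ i j, B i j = true → A i j = true) (h2 : ¬ Contains B P) : ones B ≤ LSM A P := by
  refine le_csSup ⟨a * b, ?_⟩ ⟨B, h1, h2, rfl⟩
  rintro k ⟨B', _, _, rfl⟩
  exact ones_le B'

theorem le_ex {r s n : ℕ} (A : Fin n → Fin n → Bool) (P : Fin r → Fin s → Bool)
    (h2 : ¬ Contains A P) : ones A ≤ ex n P := by
  refine le_csSup ⟨n * n, ?_⟩ ⟨A, h2, rfl⟩
  rintro k ⟨B', _, rfl⟩
  exact ones_le B'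

/-- Lower bound for `LSM`. -/
theorem LSM_lower {a b : ℕ} (A : Fin a → Fin b → Bool) : ones A ≤ LSM A P0 * LSM A P0 := by
  classical
  -- rows which are nonempty
  set K := Finset.univ.filter (fun i : Fin a => ∃ j, A i j = true) with hK
  have h1 : ∀ i, (Finset.univ.filter (fun j => A i j = true)).card ≤ LSM A P0 := by
    intro i
    have h := le_LSM A (fun x y => decide (x = i) && A x y) P0
      (fun x y h => by simp at h; exact h.2) (by
        rw [contains_P0_iff]
        rintro ⟨x, y, c1, c2, c3, c4, hxy, _, _, _, e1, e2, _, _⟩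
        simp only [Bool.and_eq_true, decide_eq_true_eq] at e1 e2
        rw [e1.1, e2.1] at hxy
        exact absurd hxy (lt_irrefl _))
    refine le_trans ?_ h
    unfold ones
    refine Finset.card_le_card_of_injOn (fun j => (i, j)) ?_ ?_
    · intro j hj
      simpa using hj
    · intro j _ j' _ h
      exact congrArg Prod.snd h
  have h2 : K.card ≤ LSM A P0 := by
    have hc : ∀ i : Fin a, i ∈ K → ∃ j, A i j = true := fun i hi => (Finset.mem_filter.1 hi).2
    rcases Nat.eq_zero_or_pos K.card with h0 | h0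
    · omega
    obtain ⟨i0, hi0⟩ := Finset.card_pos.1 h0
    obtain ⟨j0, _⟩ := hc i0 hi0
    have : Nonempty (Fin b) := ⟨j0⟩
    choose! c hc using hc
    have h := le_LSM A (fun x y => decide (y = c x) && A x y) P0
      (fun x y h => by simp at h; exact h.2) (by
        rw [contains_P0_iff]
        rintro ⟨x, y, c1, c2, c3, c4, _, h12, h23, _, e1, _, e3, _⟩
        simp only [Bool.and_eq_true, decide_eq_true_eq] at e1 e3
        have := h12.trans h23
        rw [e1.1, e3.1] at this
        exact absurd this (lt_irrefl _))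
    refine le_trans ?_ h
    unfold ones
    refine Finset.card_le_card_of_injOn (fun i => (i, c i)) ?_ ?_
    · intro i hi
      simpa using hc i hi
    · intro i _ i' _ h
      exact congrArg Prod.fst h
  have h3 : ones A ≤ K.card * LSM A P0 := by
    unfold ones
    have hsub : Finset.univ.filter (fun p : Fin a × Fin b => A p.1 p.2 = true) ⊆
        K.biUnion (fun i => (Finset.univ.filter (fun j => A i j = true)).image (fun j => (i, j))) := by
      rintro ⟨i, j⟩ hp
      have hp' : A i j = true := by simpa using hp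
      refine Finset.mem_biUnion.2 ⟨i, Finset.mem_filter.2 ⟨Finset.mem_univ _, j, hp'⟩, ?_⟩
      exact Finset.mem_image.2 ⟨j, by simpa using hp', rfl⟩
    refine (Finset.card_le_card hsub).trans (Finset.card_biUnion_le_card_mul _ _ _ ?_)
    intro i _
    exact Finset.card_image_le.trans (h1 i)
  exact h3.trans (Nat.mul_le_mul_right _ h2)

/-- The host matrix. -/
def host (N : ℕ) : Fin N → Fin (N * N) → Bool := fun i j => decide (j.val % N + i.val + 1 = N)

theorem host_ones (N : ℕ) : N * N ≤ ones (host N) := by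
  classical
  rcases Nat.eq_zero_or_pos N with rfl | hN
  · simp
  unfold ones
  have : (Finset.univ : Finset (Fin (N * N))).card = N * N := by simp
  have hlt : ∀ j : Fin (N * N), N - 1 - j.val % N < N := fun j => by omega
  refine this.symm.le.trans ?_
  refine Finset.card_le_card_of_injOn (fun j => (⟨N - 1 - j.val % N, hlt j⟩, j)) ?_ ?_
  · intro j _
    have h1 := Nat.mod_lt j.val hN
    simp only [host, Finset.coe_filter, Finset.mem_univ, true_and, Set.mem_ofPred_eq,
      decide_eq_true_eq]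
    omega
  · intro j _ j' _ h
    exact congrArg Prod.snd h

theorem three (N : ℕ) (D : Finset (ℕ × ℕ)) (hD : ∀ p ∈ D, p.1 < N ∧ p.2 < N)
    (hQ : ∀ i i' t1 t2 t3, i < i' → t1 < t2 → t2 < t3 → (i, t1) ∈ D → (i, t2) ∈ D →
      (i', t2) ∈ D → (i', t3) ∈ D → False) : D.card ≤ 3 * N := by
  classical
  set D1 := D.filter (fun p => ∀ q ∈ D, q.1 = p.1 → p.2 ≤ q.2) with hD1
  set D2 := D.filter (fun p => ∀ q ∈ D, q.1 = p.1 → q.2 ≤ p.2) with hD2
  set D3 := D.filter (fun p => (∃ q ∈ D, q.1 = p.1 ∧ q.2 < p.2) ∧ ∃ q ∈ D, q.1 = p.1 ∧ p.2 < q.2)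
    with hD3
  have c1 : D1.card ≤ N := by
    have h := Finset.card_le_card_of_injOn (s := D1) (t := Finset.range N) (fun p => p.1) (by
      intro p hp
      have hp' := (Finset.mem_filter.1 hp).1
      simpa using (hD p hp').1) (by
      intro p hp q hq h
      have hp' := Finset.mem_filter.1 (Finset.mem_coe.1 hp)
      have hq' := Finset.mem_filter.1 (Finset.mem_coe.1 hq)
      have e1 : p.1 = q.1 := h
      have a1 := hp'.2 q hq'.1 e1.symm
      have a2 := hq'.2 p hp'.1 e1
      exact Prod.ext e1 (le_antisymm a1 a2))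
    simpa using h
  have c2 : D2.card ≤ N := by
    have h := Finset.card_le_card_of_injOn (s := D2) (t := Finset.range N) (fun p => p.1) (by
      intro p hp
      have hp' := (Finset.mem_filter.1 hp).1
      simpa using (hD p hp').1) (by
      intro p hp q hq h
      have hp' := Finset.mem_filter.1 (Finset.mem_coe.1 hp)
      have hq' := Finset.mem_filter.1 (Finset.mem_coe.1 hq)
      have e1 : p.1 = q.1 := h
      have a1 := hp'.2 q hq'.1 e1.symm
      have a2 := hq'.2 p hp'.1 e1
      exact Prod.ext e1 (le_antisymm a2 a1))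
    simpa using h
  have c3 : D3.card ≤ N := by
    have h := Finset.card_le_card_of_injOn (s := D3) (t := Finset.range N) (fun p => p.2) (by
      intro p hp
      have hp' := (Finset.mem_filter.1 hp).1
      simpa using (hD p hp').2) (by
      have key : ∀ p ∈ D3, ∀ q ∈ D3, p.2 = q.2 → ¬ p.1 < q.1 := by
        rintro ⟨i, t⟩ hp ⟨i', t'⟩ hq h hlt
        simp only at h hlt
        subst h
        obtain ⟨hp1, ⟨⟨a, t1⟩, ha, ea, ha'⟩, _⟩ := Finset.mem_filter.1 hp
        obtain ⟨hq1, _, ⟨⟨b, t3⟩, hb, eb, hb'⟩⟩ := Finset.mem_filter.1 hq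
        simp only at ea ha' eb hb'
        subst ea
        subst eb
        exact hQ _ _ t1 t t3 hlt ha' hb' ha hp1 hq1 hb
      intro p hp q hq h
      have e2 : p.2 = q.2 := h
      refine Prod.ext ?_ e2
      rcases lt_trichotomy p.1 q.1 with hl | hl | hl
      · exact absurd hl (key p hp q hq e2)
      · exact hl
      · exact absurd hl (key q hq p hp e2.symm))
    simpa using h
  have hsub : D ⊆ D1 ∪ D2 ∪ D3 := by
    intro p hp
    by_cases h1 : ∀ q ∈ D, q.1 = p.1 → p.2 ≤ q.2
    · exact Finset.mem_union_left _ (Finset.mem_union_left _ (Finset.mem_filter.2 ⟨hp, h1⟩))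
    · by_cases h2 : ∀ q ∈ D, q.1 = p.1 → q.2 ≤ p.2
      · exact Finset.mem_union_left _ (Finset.mem_union_right _ (Finset.mem_filter.2 ⟨hp, h2⟩))
      · push Not at h1 h2
        exact Finset.mem_union_right _ (Finset.mem_filter.2 ⟨hp, h1, h2⟩)
  have := (Finset.card_le_card hsub).trans ((Finset.card_union_le _ _).trans
    (Nat.add_le_add_right (Finset.card_union_le _ _) _))
  omega

theorem host_LSM {N : ℕ} (B : Fin N → Fin (N * N) → Bool)
    (h1 : ∀ i j, B i j = true → host N i j = true) (h2 : ¬ Contains B P0) : ones B ≤ 3 * N := by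
  classical
  rcases Nat.eq_zero_or_pos N with rfl | hN
  · have := ones_le B
    simpa using this
  have hh : ∀ i j, B i j = true → j.val % N + i.val + 1 = N := by
    intro i j h
    simpa [host] using h1 i j h
  set T := Finset.univ.filter (fun p : Fin N × Fin (N * N) => B p.1 p.2 = true) with hT
  have hTm : ∀ p, p ∈ T ↔ B p.1 p.2 = true := by intro p; simp [hT]
  have hcard : ones B = (T.image (fun p => (p.1.val, p.2.val / N))).card := by
    rw [Finset.card_image_of_injOn]
    · rfl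
    · rintro ⟨i, j⟩ hp ⟨i', j'⟩ hq h
      have e1 := hh i j ((hTm _).1 hp)
      have e2 := hh i' j' ((hTm _).1 hq)
      simp only [Prod.mk.injEq] at h
      have e3 : i = i' := Fin.ext h.1
      subst e3
      have e4 : j.val % N = j'.val % N := by omega
      have e5 : j = j' := by
        apply Fin.ext
        rw [← Nat.div_add_mod j.val N, ← Nat.div_add_mod j'.val N, h.2, e4]
      rw [e5]
  rw [hcard]
  refine three N _ ?_ ?_
  · intro p hp
    obtain ⟨⟨i, j⟩, _, rfl⟩ := Finset.mem_image.1 hp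
    exact ⟨i.2, Nat.div_lt_of_lt_mul j.2⟩
  · intro i i' t1 t2 t3 hi ht12 ht23 m1 m2 m3 m4
    obtain ⟨⟨x1, j1⟩, hm1, e1⟩ := Finset.mem_image.1 m1
    obtain ⟨⟨x2, j2⟩, hm2, e2⟩ := Finset.mem_image.1 m2
    obtain ⟨⟨x3, j3⟩, hm3, e3⟩ := Finset.mem_image.1 m3
    obtain ⟨⟨x4, j4⟩, hm4, e4⟩ := Finset.mem_image.1 m4
    simp only [Prod.mk.injEq] at e1 e2 e3 e4
    rw [hTm] at hm1 hm2 hm3 hm4
    have f1 := hh _ _ hm1
    have f2 := hh _ _ hm2
    have f3 := hh _ _ hm3
    have f4 := hh _ _ hm4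
    simp only at hm1 hm2 hm3 hm4 f1 f2 f3 f4
    have hx12 : x1 = x2 := Fin.ext (e1.1.trans e2.1.symm)
    have hx34 : x3 = x4 := Fin.ext (e3.1.trans e4.1.symm)
    subst hx12
    subst hx34
    have g1 := Nat.div_add_mod j1.val N
    have g2 := Nat.div_add_mod j2.val N
    have g3 := Nat.div_add_mod j3.val N
    have g4 := Nat.div_add_mod j4.val N
    rw [e1.2] at g1
    rw [e2.2] at g2
    rw [e3.2] at g3
    rw [e4.2] at g4
    have k1 := Nat.mod_lt j1.val hN
    have k2 := Nat.mod_lt j2.val hN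
    have k3 := Nat.mod_lt j3.val hN
    have k4 := Nat.mod_lt j4.val hN
    have l12 : N * t1 + N ≤ N * t2 := by
      have := Nat.mul_le_mul_left N (show t1 + 1 ≤ t2 from ht12)
      rwa [Nat.mul_add, Nat.mul_one] at this
    have l23 : N * t2 + N ≤ N * t3 := by
      have := Nat.mul_le_mul_left N (show t2 + 1 ≤ t3 from ht23)
      rwa [Nat.mul_add, Nat.mul_one] at this
    apply h2
    rw [contains_P0_iff]
    refine ⟨x1, x3, j1, j3, j2, j4, ?_, ?_, ?_, ?_, hm1, hm3, hm2, hm4⟩
    · rw [Fin.lt_def]; omega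
    · rw [Fin.lt_def]; omega
    · rw [Fin.lt_def]; omega
    · rw [Fin.lt_def]; omega

theorem sm_upper (m N : ℕ) (h : m ≤ N * N) : sm m P0 ≤ 3 * N := by
  classical
  obtain ⟨T, hT, hTc⟩ := Finset.exists_subset_card_eq (h.trans (host_ones N))
  set A : Fin N → Fin (N * N) → Bool := fun i j => decide ((i, j) ∈ T) with hA
  have hones : ones A = m := by
    rw [← hTc]
    unfold ones
    congr 1
    ext p
    simp [hA]
  have hAh : ∀ i j, A i j = true → host N i j = true := by
    intro i j hij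
    have : (i, j) ∈ T := by simpa [hA] using hij
    simpa using hT this
  have h1 : LSM A P0 ≤ 3 * N := by
    refine csSup_le ?_ ?_
    · refine ⟨_, fun _ _ => false, by simp, ?_, rfl⟩
      rw [contains_P0_iff]
      simp
    · rintro k ⟨B, hB1, hB2, rfl⟩
      exact host_LSM B (fun i j hij => hAh i j (hB1 i j hij)) hB2
  have h2 : LSM A P0 ∈ {k | ∃ (a b : ℕ) (A : Fin a → Fin b → Bool), ones A = m ∧
      LSM A P0 = k} := ⟨N, N * N, A, hones, rfl⟩
  exact (Nat.sInf_le h2).trans h1

theorem sm_lower (m : ℕ) : m ≤ sm m P0 * sm m P0 := by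
  classical
  have hne : {k | ∃ (a b : ℕ) (A : Fin a → Fin b → Bool), ones A = m ∧ LSM A P0 = k}.Nonempty := by
    refine ⟨LSM (fun (_ : Fin 1) (_ : Fin m) => true) P0, 1, m, fun _ _ => true, ?_, rfl⟩
    simp [ones]
  obtain ⟨a, b, A, hA, hL⟩ := Nat.sInf_mem hne
  have := LSM_lower A
  rw [hA, hL] at this
  exact this

theorem ex_lower (k : ℕ) : ∃ n0 : ℕ, 0 < n0 ∧ ∀ n, (n / n0) * (k * n0) ≤ ex n P0 := by
  classical
  obtain ⟨n0, hn0, M, hM, T, hT, hTM⟩ := Q110.DS.dense k
  refine ⟨n0, hn0, fun n => ?_⟩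
  have hmod : ∀ i : Fin n, i.val % n0 < n0 := fun i => Nat.mod_lt _ hn0
  set A : Fin n → Fin n → Bool := fun i j => decide (i.val / n0 = j.val / n0 ∧
    M ⟨i.val % n0, hmod i⟩ ⟨j.val % n0, hmod j⟩) with hA
  have hAi : ∀ i j, A i j = true → i.val / n0 = j.val / n0 ∧
      M ⟨i.val % n0, hmod i⟩ ⟨j.val % n0, hmod j⟩ := by
    intro i j h
    simpa [hA] using h
  have hav : ¬ Contains A P0 := by
    rw [contains_P0_iff]
    rintro ⟨i, i', c1, c2, c3, c4, hi, h12, h23, h34, e1, e2, e3, e4⟩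
    have e1 := hAi _ _ e1
    have e2 := hAi _ _ e2
    have e3 := hAi _ _ e3
    have e4 := hAi _ _ e4
    rw [Fin.lt_def] at hi h12 h23 h34
    have d12 := Nat.div_le_div_right (c := n0) h12.le
    have d23 := Nat.div_le_div_right (c := n0) h23.le
    have d34 := Nat.div_le_div_right (c := n0) h34.le
    have q1 : i.val / n0 = i'.val / n0 := by omega
    have q12 : c1.val / n0 = c2.val / n0 := by omega
    have q23 : c2.val / n0 = c3.val / n0 := by omega
    have q34 : c3.val / n0 = c4.val / n0 := by omega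
    have g := Nat.div_add_mod i.val n0
    have g' := Nat.div_add_mod i'.val n0
    have g1 := Nat.div_add_mod c1.val n0
    have g2 := Nat.div_add_mod c2.val n0
    have g3 := Nat.div_add_mod c3.val n0
    have g4 := Nat.div_add_mod c4.val n0
    rw [← q1] at g'
    rw [← q34, ← q23, ← q12] at g4
    rw [← q23, ← q12] at g3
    rw [← q12] at g2
    refine hM _ _ ?_ _ _ _ _ ?_ ?_ ?_ e1.2 e2.2 e3.2 e4.2
    · rw [Fin.mk_lt_mk]; omega
    · rw [Fin.mk_lt_mk]; omega
    · rw [Fin.mk_lt_mk]; omega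
    · rw [Fin.mk_lt_mk]; omega
  refine le_trans ?_ (le_ex A P0 hav)
  have h1 : (n / n0) * (k * n0) ≤ ((Finset.univ : Finset (Fin (n / n0))) ×ˢ T).card := by
    rw [Finset.card_product, Finset.card_univ, Fintype.card_fin]
    exact Nat.mul_le_mul_left _ hT
  refine h1.trans ?_
  unfold ones
  have hb : ∀ (q : Fin (n / n0)) (x : Fin n0), q.val * n0 + x.val < n := by
    intro q x
    have h2 : (q.val + 1) * n0 ≤ (n / n0) * n0 := Nat.mul_le_mul_right _ q.2
    have h3 := Nat.div_mul_le_self n n0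
    have h4 := x.2
    rw [Nat.add_mul, Nat.one_mul] at h2
    omega
  have hdiv : ∀ (q : Fin (n / n0)) (x : Fin n0), (q.val * n0 + x.val) / n0 = q.val := by
    intro q x
    rw [Nat.add_comm, Nat.add_mul_div_right _ _ hn0, Nat.div_eq_of_lt x.2, Nat.zero_add]
  have hmd : ∀ (q : Fin (n / n0)) (x : Fin n0), (q.val * n0 + x.val) % n0 = x.val := by
    intro q x
    rw [Nat.add_comm, Nat.add_mul_mod_self_right, Nat.mod_eq_of_lt x.2]
  refine Finset.card_le_card_of_injOn
    (fun p => (⟨p.1.val * n0 + p.2.1.val, hb _ _⟩, ⟨p.1.val * n0 + p.2.2.val, hb _ _⟩)) ?_ ?_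
  · rintro ⟨q, x, y⟩ hp
    have hp' : (x, y) ∈ T := (Finset.mem_product.1 (Finset.mem_coe.1 hp)).2
    have := hTM _ hp'
    simp only [Finset.coe_filter, Finset.mem_univ, true_and, Set.mem_ofPred_eq, hA,
      decide_eq_true_eq, hdiv, hmd]
    exact this
  · rintro ⟨q, x, y⟩ _ ⟨q', x', y'⟩ _ h
    simp only [Prod.mk.injEq, Fin.mk.injEq] at h
    obtain ⟨e1, e2⟩ := h
    have f1 : q.val = q'.val := by rw [← hdiv q x, e1, hdiv]
    have f2 : x.val = x'.val := by rw [← hmd q x, e1, hmd]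
    have f3 : y.val = y'.val := by rw [← hmd q y, e2, hmd]
    rw [Fin.ext f1, Fin.ext f2, Fin.ext f3]

/-- The pattern `P0` with rows `1010` and `0101` satisfies `ex(n, P0) = ω(n)` and
`sm(m, P0) = Θ(m^(1/2))`. -/
theorem result : Tendsto (fun n : ℕ => (ex n P0 : ℝ) / n) atTop atTop ∧
    ∃ c₁ c₂ : ℝ, 0 < c₁ ∧ 0 < c₂ ∧ ∀ m : ℕ, 1 ≤ m →
      c₁ * (m : ℝ) ^ (1 / 2 : ℝ) ≤ (sm m P0 : ℝ) ∧ (sm m P0 : ℝ) ≤ c₂ * (m : ℝ) ^ (1 / 2 : ℝ) := by
  constructor
  · refine tendsto_atTop.2 fun b => ?_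
    obtain ⟨k, hk⟩ := exists_nat_gt (2 * b)
    obtain ⟨n0, hn0, h⟩ := ex_lower k
    filter_upwards [eventually_ge_atTop (2 * n0)] with n hn
    have hnpos : 0 < n := by omega
    have h1 := h n
    have h2 : n ≤ 2 * ((n / n0) * n0) := by
      have := Nat.div_add_mod n n0
      have h3 := Nat.mod_lt n hn0
      have h4 : 1 ≤ n / n0 := (Nat.one_le_div_iff hn0).2 (by omega)
      have h5 : n0 ≤ (n / n0) * n0 := Nat.le_mul_of_pos_left _ h4
      rw [Nat.mul_comm] at this
      omega
    have h3 : k * n ≤ 2 * ex n P0 := by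
      calc k * n ≤ k * (2 * ((n / n0) * n0)) := Nat.mul_le_mul_left _ h2
        _ = 2 * ((n / n0) * (k * n0)) := by ring
        _ ≤ 2 * ex n P0 := Nat.mul_le_mul_left _ h1
    have h4 : (k : ℝ) * n ≤ 2 * (ex n P0 : ℝ) := by exact_mod_cast h3
    have hnr : (0 : ℝ) < n := by exact_mod_cast hnpos
    rw [le_div_iff₀ hnr]
    nlinarith
  · refine ⟨1, 6, one_pos, by norm_num, fun m hm => ?_⟩
    rw [← Real.sqrt_eq_rpow]
    have hmr : (1 : ℝ) ≤ m := by exact_mod_cast hm
    have hs1 : 1 ≤ Real.sqrt m := Real.one_le_sqrt.2 hmr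
    have hs2 : Real.sqrt m ^ 2 = m := Real.sq_sqrt (by linarith)
    constructor
    · have h := sm_lower m
      rw [one_mul]
      refine Real.sqrt_le_iff.2 ⟨by positivity, ?_⟩
      rw [sq]
      exact_mod_cast h
    · set N := ⌈Real.sqrt m⌉₊ with hN
      have h1 : Real.sqrt m ≤ N := Nat.le_ceil _
      have h2 : (N : ℝ) < Real.sqrt m + 1 := Nat.ceil_lt_add_one (by positivity)
      have h3 : m ≤ N * N := by
        have : (m : ℝ) ≤ N * N := by nlinarith
        exact_mod_cast this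
      have h4 : (sm m P0 : ℝ) ≤ 3 * N := by exact_mod_cast sm_upper m N h3
      linarith

end Pool.Agent.Results.MP_f2a48e_co.SuperlinearSqrt
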